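import Pool.Agent.Erdos456.Mertens
import Pool.Agent.K1H24.Q3.LSV1

/-! Sumsets of two sets in arithmetic progressions and primes, by the larger sieve. -/

set_option autoImplicit false

namespace Pool.Agent.K1H82.LS

open Finset

/-- `A` is contained in an arithmetic progression with `L` terms -/
def InAP (A : Finset ℕ) (L : ℕ) : Prop := ∃ c q : ℕ, ∀ x ∈ A, ∃ i < L, x = c + i * q

/-- number of residue classes -/
noncomputable def al (A : Finset ℕ) (p : ℕ) : ℕ :=
  Set.ncard ((fun x : ℕ => (x : ZMod p)) '' (A : Set ℕ))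

theorem al_pos {A : Finset ℕ} (hA : A.Nonempty) (p : ℕ) : 0 < al A p := by
  have hf : ((fun x : ℕ => (x : ZMod p)) '' (A : Set ℕ)).Finite := A.finite_toSet.image _
  rw [al, Set.ncard_pos hf]
  obtain ⟨x, hx⟩ := hA
  exact ⟨_, x, hx, rfl⟩

theorem al_add {A B : Finset ℕ} {p : ℕ} (hp : p.Prime)
    (h : ∀ x ∈ A, ∀ y ∈ B, ¬ p ∣ x + y) : al A p + al B p ≤ p := by
  have : Fact p.Prime := ⟨hp⟩
  set S : Set (ZMod p) := Neg.neg '' ((fun x : ℕ => (x : ZMod p)) '' (A : Set ℕ)) with hS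
  set T : Set (ZMod p) := (fun x : ℕ => (x : ZMod p)) '' (B : Set ℕ) with hT
  have h1 : S.ncard = al A p := Set.ncard_image_of_injective _ neg_injective
  have h2 : Disjoint S T := by
    rw [Set.disjoint_left]
    rintro _ ⟨_, ⟨x, hx, rfl⟩, rfl⟩ ⟨y, hy, hxy⟩
    apply h x hx y hy
    rw [← ZMod.natCast_eq_zero_iff]
    push_cast
    have hxy' : (y : ZMod p) = -(x : ZMod p) := hxy
    rw [hxy']
    ring
  have h3 := Set.ncard_union_eq h2 (Set.toFinite S) (Set.toFinite T)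
  have h4 : (S ∪ T).ncard ≤ Nat.card (ZMod p) := Set.ncard_le_card _
  rw [Nat.card_zmod] at h4
  have h5 : T.ncard = al B p := rfl
  omega

theorem card_image_eq {α β : Type*} [DecidableEq β] (s : Finset α) (f : α → β) :
    (s.image f).card = Set.ncard (f '' (s : Set α)) := by
  rw [← Set.ncard_coe_finset, Finset.coe_image]

theorem card_image_eq' {α β : Type*} (s : Finset α) (f : α → β) (i : DecidableEq β) :
    (@Finset.image α β i f s).card = Set.ncard (f '' (s : Set α)) := card_image_eq s f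

theorem mem_filter' {α : Type*} (s : Finset α) (p : α → Prop) (i : DecidablePred p) {x : α}
    (h : x ∈ @Finset.filter α p i s) : x ∈ s ∧ p x := Finset.mem_filter.mp h

theorem sum_log_eq {I : Finset ℕ} (hI : ∀ p ∈ I, p.Prime) :
    ∑ p ∈ I, Real.log p = Real.log ((∏ p ∈ I, p : ℕ) : ℝ) := by
  rw [Nat.cast_prod, Real.log_prod fun p hp => by
    have := (hI p hp).pos
    positivity]

theorem sum_log_le {m : ℕ} (hm : m ≠ 0) {I : Finset ℕ} (hI : ∀ p ∈ I, p.Prime ∧ p ∣ m) :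
    ∑ p ∈ I, Real.log p ≤ Real.log m := by
  have h1 : ∏ p ∈ I, p ∣ m :=
    Finset.prod_primes_dvd m (fun p hp => (hI p hp).1.prime) fun p hp => (hI p hp).2
  have h2 := Nat.le_of_dvd (Nat.pos_of_ne_zero hm) h1
  have h3 : 0 < ∏ p ∈ I, p := prod_pos fun p hp => (hI p hp).1.pos
  rw [sum_log_eq fun p hp => (hI p hp).1]
  exact Real.log_le_log (by exact_mod_cast h3) (by exact_mod_cast h2)

theorem side {A : Finset ℕ} {I : Finset ℕ} {L c q : ℕ} (hI : ∀ p ∈ I, p.Prime ∧ ¬ p ∣ q)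
    (hA : ∀ x ∈ A, ∃ i < L, x = c + i * q) (hL : 1 ≤ L) (hne : A.Nonempty) :
    (A.card : ℝ) * (∑ p ∈ I, Real.log p / (al A p : ℝ) - Real.log L) ≤ ∑ p ∈ I, Real.log p := by
  have hLR : (1 : ℝ) ≤ L := by exact_mod_cast hL
  refine Pool.Agent.K1H24.Q3.gallagher (fun p : ℕ => ZMod p) A I (fun p x => (x : ZMod p))
    (fun p => Real.log p) (fun p => (al A p : ℝ)) (fun p hp => ?_) (fun p hp => ?_)
    (fun p hp => by exact_mod_cast al_pos hne p) (Real.log L) (Real.log_nonneg hLR)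
    fun u hu v hv huv => ?_
  · exact Real.log_natCast_nonneg p
  · exact (congrArg (Nat.cast : ℕ → ℝ)
      (card_image_eq' A (fun x : ℕ => (x : ZMod p)) _)).le
  · obtain ⟨i, hi, hui⟩ := hA u hu
    obtain ⟨j, hj, hvj⟩ := hA v hv
    set m : ℕ := ((i : ℤ) - j).natAbs with hm
    have hij : i ≠ j := by
      rintro rfl
      exact huv (hui.trans hvj.symm)
    have hm0 : m ≠ 0 := by omega
    have hmL : m ≤ L := by omega
    refine (sum_log_le hm0 fun p hp => ?_).trans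
      (Real.log_le_log (by exact_mod_cast Nat.pos_of_ne_zero hm0) (by exact_mod_cast hmL))
    obtain ⟨hpI, hpe⟩ := mem_filter' _ _ _ hp
    obtain ⟨hpp, hpq⟩ := hI p hpI
    refine ⟨hpp, ?_⟩
    have h1 : ((u : ℤ) : ZMod p) = ((v : ℤ) : ZMod p) := by
      push_cast
      exact hpe
    have h2 := (ZMod.intCast_eq_intCast_iff_dvd_sub (u : ℤ) (v : ℤ) p).mp h1
    have h3 : (v : ℤ) - u = -((i : ℤ) - j) * q := by
      rw [hui, hvj]; push_cast; ring
    rw [h3] at h2
    have hpZ : Prime (p : ℤ) := Nat.prime_iff_prime_int.mp hpp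
    rcases hpZ.dvd_or_dvd h2 with h4 | h4
    · rw [hm]
      exact Int.natCast_dvd.mp ((dvd_neg).mp h4)
    · exact absurd (Int.natCast_dvd_natCast.mp h4) hpq

theorem q_le {A : Finset ℕ} {L c q N : ℕ} (hA : ∀ x ∈ A, ∃ i < L, x = c + i * q)
    (hAN : A ⊆ Icc 1 N) (h2 : 1 < A.card) : q ≤ N ∧ q ≠ 0 ∧ 1 ≤ L := by
  obtain ⟨x, hx, y, hy, hxy⟩ := Finset.one_lt_card.mp h2
  obtain ⟨i, hi, hxi⟩ := hA x hx
  obtain ⟨j, hj, hyj⟩ := hA y hy
  have hx' := mem_Icc.mp (hAN hx)
  have hy' := mem_Icc.mp (hAN hy)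
  refine ⟨?_, ?_, by omega⟩
  · rcases lt_trichotomy i j with h | h | h
    · have h1 : q ≤ j * q := Nat.le_mul_of_pos_left _ (by omega)
      omega
    · subst h
      exact absurd (hxi.trans hyj.symm) hxy
    · have h1 : q ≤ i * q := Nat.le_mul_of_pos_left _ (by omega)
      omega
  · rintro rfl
    apply hxy
    rw [hxi, hyj]
    simp

/-- the primes up to `P` which do not divide `m` -/
def Pr (P m : ℕ) : Finset ℕ := ((Icc 1 P).filter Nat.Prime).filter fun p => ¬ p ∣ m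

theorem log_four_lt : Real.log 4 < 3 / 2 := by
  have h : Real.log 4 = 2 * Real.log 2 := by
    rw [show (4 : ℝ) = 2 ^ 2 by norm_num, Real.log_pow]; norm_num
  rw [h]
  have := Real.log_two_lt_d9
  linarith

theorem sum_log_primes (P : ℕ) : ∑ p ∈ (Icc 1 P).filter Nat.Prime, Real.log p ≤ 3 / 2 * P := by
  have h1 : ∏ p ∈ (Icc 1 P).filter Nat.Prime, p ≤ 4 ^ P := by
    have h2 := primorial_le_four_pow P
    refine le_trans (Nat.le_of_dvd (primorial_pos P) ?_) h2
    rw [primorial]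
    refine prod_dvd_prod_of_subset _ _ _ fun p hp => ?_
    rw [mem_filter, mem_Icc] at hp
    rw [mem_filter, mem_range]
    exact ⟨by omega, hp.2⟩
  rw [sum_log_eq fun p hp => (mem_filter.mp hp).2]
  have h3 : 0 < ∏ p ∈ (Icc 1 P).filter Nat.Prime, p := prod_pos fun p hp => (mem_filter.mp hp).2.pos
  have h4 : Real.log ((∏ p ∈ (Icc 1 P).filter Nat.Prime, p : ℕ) : ℝ) ≤ Real.log ((4 : ℝ) ^ P) :=
    Real.log_le_log (by exact_mod_cast h3) (by exact_mod_cast h1)
  rw [Real.log_pow] at h4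
  have := log_four_lt
  have h5 : (0 : ℝ) ≤ P := by positivity
  nlinarith

theorem main {θ a b : ℝ} (ha : 0 ≤ a) (hb : 0 ≤ b) (h : a + b < 4 * θ) :
    ∃ N₀ : ℕ, ∀ N : ℕ, N₀ ≤ N → ∀ A B : Finset ℕ, A ⊆ Icc 1 N → B ⊆ Icc 1 N →
      (N : ℝ) ^ θ ≤ A.card → (N : ℝ) ^ θ ≤ B.card →
      (∃ L : ℕ, (L : ℝ) ≤ (N : ℝ) ^ a ∧ InAP A L) → (∃ L : ℕ, (L : ℝ) ≤ (N : ℝ) ^ b ∧ InAP B L) →
      ∃ x ∈ A, ∃ y ∈ B, 1 < x + y ∧ ¬ (x + y).Prime := by
  obtain ⟨C₁, hC₁⟩ := Pool.Agent.Erdos456.Mert.mertens_log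
  set ε : ℝ := (4 * θ - a - b) / 16 with hε
  have hε0 : 0 < ε := by rw [hε]; linarith
  obtain ⟨C₂, hC₂0, hC₂⟩ := Pool.Agent.K1H24.Q3.sum_primeFactors ε hε0
  have hθ : 0 < θ := by linarith
  obtain ⟨M, hM⟩ := exists_nat_gt (Real.exp (max ((4 * Real.log 8 + 4 * C₁ + 8 * C₂ + 2) / (8 * ε) + 1)
    (Real.log 8 / θ + 1)))
  refine ⟨max M 2, fun N hN A B hAN hBN hA hB hAL hBL => ?_⟩
  by_contra hcon
  push Not at hcon
  have hN2 : 2 ≤ N := (le_max_right _ _).trans hN
  have hN0 : (0 : ℝ) < N := by exact_mod_cast (by omega : 0 < N)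
  have hMN : (M : ℝ) ≤ N := by exact_mod_cast (le_max_left _ _).trans hN
  set l : ℝ := Real.log N with hl
  have hlM : max ((4 * Real.log 8 + 4 * C₁ + 8 * C₂ + 2) / (8 * ε) + 1) (Real.log 8 / θ + 1) ≤ l := by
    rw [hl, Real.le_log_iff_exp_le hN0]
    linarith
  have hl1 := (le_max_left _ _).trans hlM
  have hl2 := (le_max_right _ _).trans hlM
  have h8 : (8 : ℝ) ≤ (N : ℝ) ^ θ := by
    have h1 : Real.log 8 ≤ θ * l := by
      have : Real.log 8 / θ ≤ l := by linarith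
      rw [div_le_iff₀ hθ] at this
      linarith
    rw [Real.rpow_def_of_pos hN0, ← Real.log_le_iff_le_exp (by norm_num)]
    linarith
  set Y : ℝ := (N : ℝ) ^ θ with hY
  set P : ℕ := ⌊Y / 4⌋₊ with hP
  have hPY : (P : ℝ) ≤ Y / 4 := Nat.floor_le (by linarith)
  have hPY' : Y / 8 ≤ P := by
    have := Nat.lt_floor_add_one (Y / 4)
    have h1 : Y / 4 < (P : ℝ) + 1 := this
    linarith
  have hP1 : 1 ≤ P := by
    have : (1 : ℝ) ≤ P := by linarith
    exact_mod_cast this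
  obtain ⟨L, hLa, c, q, hAq⟩ := hAL
  obtain ⟨L', hLb, c', q', hBq⟩ := hBL
  have hA2 : 1 < A.card := by
    have : (8 : ℝ) ≤ A.card := h8.trans hA
    have : 8 ≤ A.card := by exact_mod_cast this
    omega
  have hB2 : 1 < B.card := by
    have : (8 : ℝ) ≤ B.card := h8.trans hB
    have : 8 ≤ B.card := by exact_mod_cast this
    omega
  obtain ⟨hqN, hq0, hL1⟩ := q_le hAq hAN hA2
  obtain ⟨hqN', hq0', hL1'⟩ := q_le hBq hBN hB2
  -- the large elements
  set A' : Finset ℕ := A.filter fun x => P < x with hA'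
  have hA'c : (A.card : ℝ) ≤ A'.card + P := by
    have h1 : A ⊆ A' ∪ Icc 1 P := by
      intro x hx
      rw [mem_union, hA', mem_filter, mem_Icc]
      have := mem_Icc.mp (hAN hx)
      by_cases h2 : P < x
      · exact Or.inl ⟨hx, h2⟩
      · exact Or.inr ⟨by omega, by omega⟩
    have h2 := (card_le_card h1).trans (card_union_le _ _)
    rw [Nat.card_Icc, Nat.add_sub_cancel] at h2
    exact_mod_cast h2
  have hA'Y : 3 * (P : ℝ) ≤ A'.card := by linarith
  have hA'ne : A'.Nonempty := by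
    rw [← card_pos]
    have : (3 : ℝ) * 1 ≤ 3 * P := by
      have : (1 : ℝ) ≤ P := by exact_mod_cast hP1
      linarith
    have h3 : (0 : ℝ) < A'.card := by linarith
    exact_mod_cast h3
  have hBne : B.Nonempty := card_pos.mp (by omega)
  set I : Finset ℕ := Pr P (q * q') with hI
  have hIp : ∀ p ∈ I, p.Prime ∧ p ≤ P ∧ ¬ p ∣ q ∧ ¬ p ∣ q' := by
    intro p hp
    rw [hI, Pr, mem_filter, mem_filter, mem_Icc] at hp
    exact ⟨hp.1.2, hp.1.1.2, fun h1 => hp.2 (h1.mul_right _), fun h1 => hp.2 (h1.mul_left _)⟩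
  have hIs : ∑ p ∈ I, Real.log p ≤ 3 / 2 * P := by
    refine le_trans (sum_le_sum_of_subset_of_nonneg (filter_subset _ _) ?_) (sum_log_primes P)
    intro p _ _
    exact Real.log_natCast_nonneg p
  have sA := side (A := A') (I := I) (L := L) (c := c) (q := q)
    (fun p hp => ⟨(hIp p hp).1, (hIp p hp).2.2.1⟩)
    (fun x hx => hAq x (mem_filter.mp hx).1) hL1 hA'ne
  have sB := side (A := B) (I := I) (L := L') (c := c') (q := q')
    (fun p hp => ⟨(hIp p hp).1, (hIp p hp).2.2.2⟩) hBq hL1' hBne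
  have hPR : (0 : ℝ) < P := by exact_mod_cast hP1
  have tA : ∑ p ∈ I, Real.log p / (al A' p : ℝ) ≤ Real.log L + 1 := by
    by_contra h1
    push Not at h1
    have h2 : (1 : ℝ) ≤ ∑ p ∈ I, Real.log p / (al A' p : ℝ) - Real.log L := by linarith
    have h3 : 3 * (P : ℝ) * 1 ≤ A'.card * (∑ p ∈ I, Real.log p / (al A' p : ℝ) - Real.log L) :=
      mul_le_mul hA'Y h2 (by norm_num) (by positivity)
    linarith
  have tB : ∑ p ∈ I, Real.log p / (al B p : ℝ) ≤ Real.log L' + 1 := by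
    by_contra h1
    push Not at h1
    have h2 : (1 : ℝ) ≤ ∑ p ∈ I, Real.log p / (al B p : ℝ) - Real.log L' := by linarith
    have h3 : 4 * (P : ℝ) * 1 ≤ B.card * (∑ p ∈ I, Real.log p / (al B p : ℝ) - Real.log L') :=
      mul_le_mul (by linarith) h2 (by norm_num) (by positivity)
    linarith
  have lA : Real.log L ≤ a * l := by
    rw [hl, ← Real.log_rpow hN0]
    exact Real.log_le_log (by exact_mod_cast hL1) hLa
  have lB : Real.log L' ≤ b * l := by
    rw [hl, ← Real.log_rpow hN0]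
    exact Real.log_le_log (by exact_mod_cast hL1') hLb
  -- the classes
  have hcl : ∀ p ∈ I, 4 * (Real.log p / p) ≤
      Real.log p / (al A' p : ℝ) + Real.log p / (al B p : ℝ) := by
    intro p hp
    obtain ⟨hpp, hpP, -, -⟩ := hIp p hp
    have h1 : al A' p + al B p ≤ p := by
      refine al_add hpp fun x hx y hy hd => ?_
      rw [hA', mem_filter] at hx
      have hx1 := mem_Icc.mp (hAN hx.1)
      have hy1 := mem_Icc.mp (hBN hy)
      have hpr := hcon x hx.1 y hy (by omega)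
      have := (Nat.prime_dvd_prime_iff_eq hpp hpr).mp hd
      omega
    have hα : (0 : ℝ) < al A' p := by exact_mod_cast al_pos hA'ne p
    have hβ : (0 : ℝ) < al B p := by exact_mod_cast al_pos hBne p
    have h2 : (al A' p : ℝ) + al B p ≤ p := by exact_mod_cast h1
    have hp0 : (0 : ℝ) < p := by exact_mod_cast hpp.pos
    have hlp : 0 ≤ Real.log p := Real.log_natCast_nonneg p
    have h3 : 4 / (p : ℝ) ≤ 1 / (al A' p : ℝ) + 1 / (al B p : ℝ) := by
      rw [div_add_div _ _ hα.ne' hβ.ne', div_le_div_iff₀ hp0 (mul_pos hα hβ)]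
      nlinarith [sq_nonneg ((al A' p : ℝ) - al B p), mul_pos hα hβ]
    have h4 := mul_le_mul_of_nonneg_left h3 hlp
    calc 4 * (Real.log p / p) = Real.log p * (4 / p) := by ring
      _ ≤ _ := h4
      _ = _ := by ring
  have hup : 4 * ∑ p ∈ I, Real.log p / p ≤ (a + b) * l + 2 := by
    rw [mul_sum]
    refine (sum_le_sum hcl).trans ?_
    rw [sum_add_distrib]
    linarith
  -- Mertens
  have hlow : Real.log P - C₁ - (ε * Real.log q + C₂) - (ε * Real.log q' + C₂) ≤
      ∑ p ∈ I, Real.log p / p := by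
    have h1 := (abs_le.mp (hC₁ P hP1)).1
    have h2 : ∑ p ∈ (Icc 1 P).filter Nat.Prime, Real.log p / p ≤ ∑ p ∈ I, Real.log p / p +
        (∑ p ∈ q.primeFactors, Real.log p / p + ∑ p ∈ q'.primeFactors, Real.log p / p) := by
      have h3 : (Icc 1 P).filter Nat.Prime ⊆ I ∪ (q.primeFactors ∪ q'.primeFactors) := by
        intro p hp
        rw [mem_union, mem_union, Nat.mem_primeFactors, Nat.mem_primeFactors]
        by_cases h4 : p ∣ q * q'
        · have hpp := (mem_filter.mp hp).2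
          rcases hpp.dvd_or_dvd h4 with h5 | h5
          · exact Or.inr (Or.inl ⟨hpp, h5, hq0⟩)
          · exact Or.inr (Or.inr ⟨hpp, h5, hq0'⟩)
        · exact Or.inl (mem_filter.mpr ⟨hp, h4⟩)
      have hnn : ∀ p : ℕ, 0 ≤ Real.log p / (p : ℝ) := fun p =>
        div_nonneg (Real.log_natCast_nonneg p) (Nat.cast_nonneg p)
      have hun : ∀ s t : Finset ℕ, ∑ p ∈ s ∪ t, Real.log p / (p : ℝ) ≤
          ∑ p ∈ s, Real.log p / (p : ℝ) + ∑ p ∈ t, Real.log p / (p : ℝ) := by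
        intro s t
        rw [← sum_union_inter]
        have := sum_nonneg fun p (_ : p ∈ s ∩ t) => hnn p
        linarith
      refine (sum_le_sum_of_subset_of_nonneg h3 fun p _ _ => hnn p).trans ?_
      refine (hun _ _).trans ?_
      have := hun q.primeFactors q'.primeFactors
      linarith
    have h3 := hC₂ q hq0
    have h4 := hC₂ q' hq0'
    linarith
  have hlq : Real.log q ≤ l := Real.log_le_log (by exact_mod_cast Nat.pos_of_ne_zero hq0)
    (by exact_mod_cast hqN)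
  have hlq' : Real.log q' ≤ l := Real.log_le_log (by exact_mod_cast Nat.pos_of_ne_zero hq0')
    (by exact_mod_cast hqN')
  have hlP : θ * l - Real.log 8 ≤ Real.log P := by
    have h1 : Real.log (Y / 8) ≤ Real.log P := Real.log_le_log (by linarith) hPY'
    rw [Real.log_div (by linarith) (by norm_num), hY, Real.log_rpow hN0] at h1
    exact h1
  have e1 : ε * Real.log q ≤ ε * l := mul_le_mul_of_nonneg_left hlq hε0.le
  have e2 : ε * Real.log q' ≤ ε * l := mul_le_mul_of_nonneg_left hlq' hε0.le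
  have hfin : 8 * ε * l ≤ 4 * Real.log 8 + 4 * C₁ + 8 * C₂ + 2 := by
    have h1 : 16 * ε = 4 * θ - a - b := by rw [hε]; ring
    have h2 : (16 * ε) * l = (4 * θ - a - b) * l := by rw [h1]
    nlinarith
  have hlast : (4 * Real.log 8 + 4 * C₁ + 8 * C₂ + 2) / (8 * ε) < l := by linarith
  rw [div_lt_iff₀ (by linarith)] at hlast
  linarith

end Pool.Agent.K1H82.LS
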